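import Mathlib
import Pool.Agent.W837.GB.Defs

/-!
One-variable polynomial estimate outside an interval.
-/

set_option autoImplicit false

open MeasureTheory Set

namespace Pool.Agent.W112.GB

open Pool.Agent.W837.GB

/-- separated points in a set of large measure -/
lemma exists_separated (S : Set ℝ) (hb : BddBelow S) (δ ε : ℝ) (hδ : 0 < δ) (hε : 0 < ε) (d : ℕ)
    (hV : ENNReal.ofReal (d * (ε + δ)) < volume S) (hne : S.Nonempty) :
    ∀ k : ℕ, k ≤ d → ∃ t : ℕ → ℝ, (∀ i, i ≤ k → t i ∈ S) ∧ (∀ i, i < k → t i + δ ≤ t (i + 1)) ∧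
      volume (S ∩ Iic (t k)) ≤ ENNReal.ofReal ((k + 1) * ε + k * δ) := by
  intro k
  induction k with
  | zero =>
    intro _
    obtain ⟨x, hx, hxm⟩ := Real.lt_sInf_add_pos hne hε
    refine ⟨fun _ => x, fun _ _ => hx, fun i hi => absurd hi (Nat.not_lt_zero _), ?_⟩
    have hsub : S ∩ Iic x ⊆ Icc (sInf S) x := fun y hy => ⟨csInf_le hb hy.1, hy.2⟩
    calc volume (S ∩ Iic x) ≤ volume (Icc (sInf S) x) := measure_mono hsub
      _ = ENNReal.ofReal (x - sInf S) := Real.volume_Icc
      _ ≤ _ := ENNReal.ofReal_le_ofReal (by push_cast; linarith)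
  | succ k ih =>
    intro hk
    obtain ⟨t, h1, h2, h3⟩ := ih (by omega)
    set A : Set ℝ := S ∩ Ici (t k + δ) with hA
    have hAb : BddBelow A := ⟨t k + δ, fun y hy => hy.2⟩
    have hkd : ((k : ℝ) + 1) ≤ d := by exact_mod_cast hk
    have hAne : A.Nonempty := by
      by_contra hcon
      rw [Set.not_nonempty_iff_eq_empty] at hcon
      have hsub : S ⊆ (S ∩ Iic (t k)) ∪ Ico (t k) (t k + δ) := by
        intro y hy
        rcases le_or_gt y (t k) with h | h
        · exact Or.inl ⟨hy, h⟩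
        · rcases lt_or_ge y (t k + δ) with h' | h'
          · exact Or.inr ⟨h.le, h'⟩
          · exfalso
            have : y ∈ A := ⟨hy, h'⟩
            rw [hcon] at this
            exact this
      have h4 : volume S ≤ ENNReal.ofReal ((k + 1) * ε + k * δ) + ENNReal.ofReal δ := by
        calc volume S ≤ volume ((S ∩ Iic (t k)) ∪ Ico (t k) (t k + δ)) := measure_mono hsub
          _ ≤ volume (S ∩ Iic (t k)) + volume (Ico (t k) (t k + δ)) := measure_union_le _ _
          _ ≤ _ := by
            refine add_le_add h3 ?_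
            rw [Real.volume_Ico]
            exact ENNReal.ofReal_le_ofReal (by linarith)
      rw [← ENNReal.ofReal_add (by positivity) hδ.le] at h4
      have h5 : (k + 1) * ε + k * δ + δ ≤ d * (ε + δ) := by nlinarith
      exact absurd (lt_of_lt_of_le hV (h4.trans (ENNReal.ofReal_le_ofReal h5))) (lt_irrefl _)
    obtain ⟨x, hx, hxm⟩ := Real.lt_sInf_add_pos hAne hε
    refine ⟨fun i => if i ≤ k then t i else x, ?_, ?_, ?_⟩
    · intro i hi
      by_cases hik : i ≤ k
      · simp only [if_pos hik]; exact h1 i hik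
      · simp only [if_neg hik]; exact hx.1
    · intro i hi
      by_cases hik : i < k
      · simp only [if_pos hik.le, if_pos (Nat.succ_le_of_lt hik)]
        exact h2 i hik
      · have : i = k := by omega
        subst this
        simp only [le_refl, if_true]
        rw [if_neg (by omega)]
        exact hx.2
    · simp only
      rw [if_neg (by omega)]
      have hsub : S ∩ Iic x ⊆ ((S ∩ Iic (t k)) ∪ Ico (t k) (t k + δ)) ∪ Icc (sInf A) x := by
        intro y hy
        rcases le_or_gt y (t k) with h | h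
        · exact Or.inl (Or.inl ⟨hy.1, h⟩)
        · rcases lt_or_ge y (t k + δ) with h' | h'
          · exact Or.inl (Or.inr ⟨h.le, h'⟩)
          · exact Or.inr ⟨csInf_le hAb ⟨hy.1, h'⟩, hy.2⟩
      have hx0 : 0 ≤ x - sInf A := by
        have := csInf_le hAb hx
        linarith
      calc volume (S ∩ Iic x) ≤ volume (((S ∩ Iic (t k)) ∪ Ico (t k) (t k + δ)) ∪ Icc (sInf A) x) :=
            measure_mono hsub
        _ ≤ (volume (S ∩ Iic (t k)) + volume (Ico (t k) (t k + δ))) + volume (Icc (sInf A) x) :=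
            (measure_union_le _ _).trans (add_le_add (measure_union_le _ _) le_rfl)
        _ ≤ (ENNReal.ofReal ((k + 1) * ε + k * δ) + ENNReal.ofReal δ) + ENNReal.ofReal ε := by
            refine add_le_add (add_le_add h3 ?_) ?_
            · rw [Real.volume_Ico]
              exact ENNReal.ofReal_le_ofReal (by linarith)
            · rw [Real.volume_Icc]
              exact ENNReal.ofReal_le_ofReal (by linarith)
        _ = ENNReal.ofReal (((k + 1 : ℕ) + 1) * ε + (k + 1 : ℕ) * δ) := by
            rw [← ENNReal.ofReal_add (by positivity) hδ.le, ← ENNReal.ofReal_add (by positivity) hε.le]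
            congr 1
            push_cast
            ring

/-- Lagrange interpolation bound -/
lemma lagrange_bound (φ : Polynomial ℂ) (d : ℕ) (hφ : φ.natDegree ≤ d) (t : ℕ → ℝ) (x : ℂ)
    (δ R : ℝ) (hδ : 0 < δ) (hsep : ∀ i j, i ≤ d → j ≤ d → i ≠ j → δ ≤ |t i - t j|)
    (hR : ∀ i, i ≤ d → ‖x - (t i : ℂ)‖ ≤ R) :
    ‖φ.eval x‖ ≤ ∑ k ∈ Finset.range (d + 1), ‖φ.eval ((t k : ℝ) : ℂ)‖ * (R / δ) ^ d := by
  classical
  set s := Finset.range (d + 1) with hs
  have hR0 : 0 ≤ R := (norm_nonneg _).trans (hR 0 (Nat.zero_le _))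
  have hinj : Set.InjOn (fun i : ℕ => ((t i : ℝ) : ℂ)) s := by
    intro i hi j hj hij
    by_contra hne
    have hi' : i ≤ d := Nat.lt_succ_iff.1 (Finset.mem_range.1 hi)
    have hj' : j ≤ d := Nat.lt_succ_iff.1 (Finset.mem_range.1 hj)
    have := hsep i j hi' hj' hne
    have h2 : t i = t j := Complex.ofReal_injective hij
    rw [h2, sub_self, abs_zero] at this
    linarith
  have hdeg : φ.degree < s.card := by
    rw [hs, Finset.card_range]
    exact lt_of_le_of_lt Polynomial.degree_le_natDegree (by exact_mod_cast Nat.lt_succ_of_le hφ)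
  have hint := Lagrange.eq_interpolate hinj hdeg
  have h1 : φ.eval x = ∑ k ∈ s, φ.eval ((t k : ℝ) : ℂ) *
      ∏ j ∈ s.erase k, ((((t k : ℝ) : ℂ) - ((t j : ℝ) : ℂ))⁻¹ * (x - ((t j : ℝ) : ℂ))) := by
    conv_lhs => rw [hint]
    rw [Lagrange.interpolate_apply, Polynomial.eval_finset_sum]
    refine Finset.sum_congr rfl fun k _ => ?_
    rw [Polynomial.eval_mul, Polynomial.eval_C, Lagrange.basis, Polynomial.eval_prod]
    congr 1
    refine Finset.prod_congr rfl fun j _ => ?_
    simp [Lagrange.basisDivisor]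
  rw [h1]
  refine (norm_sum_le _ _).trans (Finset.sum_le_sum fun k hk => ?_)
  rw [norm_mul, norm_prod]
  refine mul_le_mul_of_nonneg_left ?_ (norm_nonneg _)
  have hk' : k ≤ d := Nat.lt_succ_iff.1 (Finset.mem_range.1 hk)
  calc ∏ j ∈ s.erase k, ‖(((t k : ℝ) : ℂ) - ((t j : ℝ) : ℂ))⁻¹ * (x - ((t j : ℝ) : ℂ))‖
      ≤ ∏ j ∈ s.erase k, (R / δ) := by
        refine Finset.prod_le_prod (fun _ _ => norm_nonneg _) fun j hj => ?_
        have hj1 : j ≠ k := Finset.ne_of_mem_erase hj
        have hj' : j ≤ d := Nat.lt_succ_iff.1 (Finset.mem_range.1 (Finset.mem_of_mem_erase hj))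
        rw [norm_mul, norm_inv, ← Complex.ofReal_sub, Complex.norm_real, Real.norm_eq_abs]
        rw [div_eq_inv_mul]
        have h5 := hsep k j hk' hj' (Ne.symm hj1)
        refine mul_le_mul ?_ (hR j hj') (norm_nonneg _) (by positivity)
        exact inv_anti₀ hδ h5
    _ = (R / δ) ^ d := by
        rw [Finset.prod_const, Finset.card_erase_of_mem hk, hs, Finset.card_range, Nat.add_sub_cancel]

theorem sb1 : S_SB1 := by
  intro φ d h s hd hφ hh0 hh1 hs0 hs1
  set lam : ℝ := (h * s / (8 * d)) ^ d * ‖φ.eval 0‖ with hlam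
  set S : Set ℝ := {t : ℝ | t ∈ Set.Icc 1 (1 + h) ∧ ‖φ.eval ((t : ℝ) : ℂ)‖ < lam} with hS
  by_contra hcon
  push Not at hcon
  have hd0 : (0 : ℝ) < d := by exact_mod_cast hd
  set δ : ℝ := s * h / (2 * d) with hδ
  have hδ0 : 0 < δ := by positivity
  have hSne : S.Nonempty := by
    by_contra hne
    rw [Set.not_nonempty_iff_eq_empty] at hne
    rw [hne, measure_empty] at hcon
    exact absurd hcon (not_lt.2 bot_le)
  have hSb : BddBelow S := ⟨1, fun y hy => hy.1.1⟩
  have hV : ENNReal.ofReal (d * (δ / 2 + δ)) < volume S := by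
    refine lt_of_le_of_lt (ENNReal.ofReal_le_ofReal ?_) hcon
    have : d * (δ / 2 + δ) = 3 / 4 * (s * h) := by
      rw [hδ]; field_simp; ring
    rw [this]
    nlinarith [mul_pos hs0 hh0]
  obtain ⟨t, ht1, ht2, -⟩ := exists_separated S hSb δ (δ / 2) hδ0 (by positivity) d hV hSne d le_rfl
  -- separation
  have hmono : ∀ i j, i < j → j ≤ d → t i + δ ≤ t j := by
    intro i j hij hjd
    induction j with
    | zero => omega
    | succ j ih =>
      have h3 := ht2 j (by omega)
      rcases Nat.lt_succ_iff_lt_or_eq.1 hij with h | h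
      · have := ih h (by omega)
        linarith
      · rw [h]; exact h3
  have hsep : ∀ i j, i ≤ d → j ≤ d → i ≠ j → δ ≤ |t i - t j| := by
    intro i j hi hj hij
    rcases lt_or_gt_of_ne hij with h | h
    · have := hmono i j h hj
      rw [abs_sub_comm]
      exact le_trans (by linarith) (le_abs_self _)
    · have := hmono j i h hi
      exact le_trans (by linarith) (le_abs_self _)
  have hb := lagrange_bound φ d hφ t 0 δ 2 hδ0 hsep (by
    intro i hi
    have := (ht1 i hi).1
    rw [zero_sub, norm_neg, Complex.norm_real, Real.norm_eq_abs, abs_of_nonneg (by linarith [this.1])]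
    linarith [this.2])
  have hlt : ∑ k ∈ Finset.range (d + 1), ‖φ.eval ((t k : ℝ) : ℂ)‖ * (2 / δ) ^ d <
      ∑ k ∈ Finset.range (d + 1), lam * (2 / δ) ^ d := by
    refine Finset.sum_lt_sum_of_nonempty (Finset.nonempty_range_iff.2 (by omega)) fun k hk => ?_
    have hk' : k ≤ d := Nat.lt_succ_iff.1 (Finset.mem_range.1 hk)
    exact mul_lt_mul_of_pos_right (ht1 k hk').2 (by positivity)
  rw [Finset.sum_const, Finset.card_range, nsmul_eq_mul] at hlt
  have h2d : ((d + 1 : ℕ) : ℝ) ≤ 2 ^ d := by exact_mod_cast Nat.lt_two_pow_self (n := d)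
  have hlam0 : 0 ≤ lam := by positivity
  have hfin : ((d + 1 : ℕ) : ℝ) * (lam * (2 / δ) ^ d) ≤ ‖φ.eval 0‖ := by
    calc ((d + 1 : ℕ) : ℝ) * (lam * (2 / δ) ^ d) ≤ 2 ^ d * (lam * (2 / δ) ^ d) :=
          mul_le_mul_of_nonneg_right h2d (by positivity)
      _ = (2 * (h * s / (8 * d)) * (2 / δ)) ^ d * ‖φ.eval 0‖ := by
          rw [hlam, mul_pow, mul_pow]; ring
      _ = 1 ^ d * ‖φ.eval 0‖ := by
          congr 2
          rw [hδ]
          field_simp
          ring
      _ = ‖φ.eval 0‖ := by rw [one_pow, one_mul]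
  linarith

end Pool.Agent.W112.GB
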